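import Mathlib
import Pool.Agent.Results.MP_991e92_nt.AllExponents
import Pool.Agent.Results.MP_991e92_nt.FewExceptions
import Pool.Agent.V11001.KM.Nat

/-! # Artin's density with correction factor for ALL integers near the powers of almost every real number

`P r n x` is the number of primes `p ≤ x` with `gcd (p - 1, r) = 1` modulo which `n` is a primitive
root, and `δ D r` the expected density, with its correction factor (for `r = 1` all primes are counted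
and `δ D 1` is the density of Q1 for the integers with squarefree part `D ≡ 1 mod 4`).

Let `ν n` be real numbers with `ν n / log n → ∞`, for example `ν n = n` or `ν n = n !`, `β > 0` and `θ < 1`. For all
`z > 1` outside a set of Hausdorff dimension at most `(1 / 2) / (1 - θ)` there are `C` and `κ > 0` such that for all
large `n` ALL the integers `m` with `|m - β z ^ (ν n)| ≤ z ^ (θ ν n)`, for example (for `θ = 0`) the integer part of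
`z ^ n`, have the following properties, for EVERY `x` with `m ^ C ≤ x ≤ exp ((log m) ^ (1 + κ))`:

* for every `D ≡ 1 mod 4`, squarefree, different from `1`, every `b ≠ 0`, every odd squarefree `r` and
  every even exponent `k` all of whose odd prime factors divide `r` (for instance `b = 1`, `r = 1`, `k = 2`),
  `P r (D b² m ^ k) x = (δ D r + o(1)) π(x)`;
* for every `D ≠ 0` the number of primes `p ≤ x` with primitive root `D m` is `(A + o(1)) π(x)`,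
  where `A` is Artin's constant. -/

set_option autoImplicit false

open Filter Topology

namespace Pool.Agent.Results.MP_991e92_nt.IntegersNearPowers

open AllExponents (P δ)

/-- Artin's constant -/
noncomputable def artin : ℝ :=
  ∏' p : Nat.Primes, (1 - 1 / (((p : ℕ) : ℝ) * (((p : ℕ) : ℝ) - 1)))

/-- the number of primes `p ≤ x` modulo which `n` is a primitive root -/
noncomputable def R (n : ℤ) (x : ℕ) : ℕ := by
  classical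
  exact ((Finset.range (x + 1)).filter (fun p : ℕ => p.Prime ∧ orderOf (n : ZMod p) = p - 1)).card

/-- the exponent `k` is even and its odd prime factors divide `r` -/
def Adapted (r k : ℕ) : Prop :=
  1 ≤ k ∧ 2 ∣ k ∧ ∀ l : ℕ, l.Prime → l ∣ k → l ≠ 2 → l ∣ r

/-- for all large `n`, all the integers `m` with `|m - β z ^ (ν n)| ≤ z ^ (θ ν n)` and all `x` between `m ^ C` and
`exp ((log m) ^ (1 + κ))`: the asymptotic formulas for `D b² m ^ k` and for `D m` -/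
def Law (ν : ℕ → ℝ) (θ β z C κ : ℝ) : Prop :=
  (∀ D : ℤ, Squarefree D → D % 4 = 1 → D ≠ 1 → ∀ b : ℤ, b ≠ 0 → ∀ r : ℕ, Squarefree r → Odd r →
    ∀ k : ℕ, Adapted r k → ∀ ε : ℝ, 0 < ε → ∃ n₀ : ℕ, ∀ n : ℕ, n₀ ≤ n → ∀ m : ℕ,
      |(m : ℝ) - β * z ^ ν n| ≤ z ^ (θ * ν n) → ∀ x : ℕ, (m : ℝ) ^ C ≤ x →
        (x : ℝ) ≤ Real.exp ((Real.log m) ^ (1 + κ)) →
        |(P r (D * b ^ 2 * (m : ℤ) ^ k) x : ℝ) - δ D r * (Nat.primeCounting x : ℝ)| ≤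
          ε * (Nat.primeCounting x : ℝ)) ∧
  (∀ D : ℤ, D ≠ 0 → ∀ ε : ℝ, 0 < ε → ∃ n₀ : ℕ, ∀ n : ℕ, n₀ ≤ n → ∀ m : ℕ,
      |(m : ℝ) - β * z ^ ν n| ≤ z ^ (θ * ν n) → ∀ x : ℕ, (m : ℝ) ^ C ≤ x →
        (x : ℝ) ≤ Real.exp ((Real.log m) ^ (1 + κ)) →
        |(R (D * (m : ℤ)) x : ℝ) - artin * (Nat.primeCounting x : ℝ)| ≤
          ε * (Nat.primeCounting x : ℝ))

/-- one asymptotic formula -/
lemma one {ν : ℕ → ℝ} {s θ β C₀ C κ κ' : ℝ} (hν : Tendsto (fun n : ℕ => ν n / Real.log n) atTop atTop)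
    (hβ : 0 < β) (hs : 0 < s) (hθ1 : θ < 1) (hC₀ : 0 < C₀) (hC : C₀ < C)
    (hκ : 0 < κ) (hκ' : κ ≤ κ') (G : ℕ → ℕ → ℝ) (a ε : ℝ) (bad : ℕ → Finset ℕ) (N₀ : ℕ)
    (hbad : ∀ N : ℕ, N₀ ≤ N → ((bad N).card : ℝ) ≤ (N : ℝ) ^ s)
    (hmem : ∀ N m : ℕ, 1 ≤ m → m ≤ N → (∃ x : ℕ, (N : ℝ) ^ C₀ ≤ x ∧
      (x : ℝ) ≤ Real.exp ((Real.log N) ^ (1 + κ')) ∧
      ε * (Nat.primeCounting x : ℝ) < |G m x - a * (Nat.primeCounting x : ℝ)|) → m ∈ bad N) :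
    ∃ E : Set ℝ, dimH E ≤ ENNReal.ofReal (s / (1 - θ)) ∧ ∀ z : ℝ, 1 < z → z ∉ E →
      ∃ n0 : ℕ, ∀ n : ℕ, n0 ≤ n → ∀ m : ℕ, 1 ≤ m → |(m : ℝ) - β * z ^ ν n| ≤ z ^ (θ * ν n) →
        ∀ x : ℕ, (m : ℝ) ^ C ≤ x → (x : ℝ) ≤ Real.exp ((Real.log m) ^ (1 + κ)) →
        |G m x - a * (Nat.primeCounting x : ℝ)| ≤ ε * (Nat.primeCounting x : ℝ) := by
  set S : Set ℕ := {m | 1 ≤ m ∧ ∃ x : ℕ, (m : ℝ) ^ C ≤ x ∧
    (x : ℝ) ≤ Real.exp ((Real.log m) ^ (1 + κ)) ∧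
    ε * (Nat.primeCounting x : ℝ) < |G m x - a * (Nat.primeCounting x : ℝ)|} with hSdef
  obtain ⟨E, hE, h⟩ := Pool.Agent.V11001.KM.powers_of_bad hν hβ hs hθ1 S bad N₀ hbad
    (max 2 ⌈C₀ / (C - C₀)⌉₊) (by
      rintro i hi m ⟨hm1, x, hx1, hx2, hx3⟩ hmi hmi2
      have hi2 : ⌈C₀ / (C - C₀)⌉₊ ≤ i := (le_max_right _ _).trans hi
      have hi3 : 2 ≤ i := (le_max_left _ _).trans hi
      refine hmem _ m hm1 hmi2 ⟨x, ?_, ?_, hx3⟩
      · exact (Pool.Agent.V11109.WIN.pow_block hC₀ hC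
          ((Nat.le_ceil _).trans (by exact_mod_cast hi2)) hmi).trans hx1
      · refine hx2.trans (Real.exp_le_exp.2 ?_)
        have h0 : 2 ^ 2 ≤ 2 ^ i := Nat.pow_le_pow_right (by norm_num) hi3
        have h1 : (3 : ℝ) ≤ m := by exact_mod_cast (by omega : 3 ≤ m)
        have h2 : (m : ℝ) ≤ ((2 ^ (i + 1) : ℕ) : ℝ) := by exact_mod_cast hmi2
        have h3 : Real.log m ≤ Real.log ((2 ^ (i + 1) : ℕ) : ℝ) := Real.log_le_log (by linarith) h2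
        have h4 : 1 ≤ Real.log m := by
          rw [Real.le_log_iff_exp_le (by linarith)]
          linarith [Real.exp_one_lt_d9]
        calc (Real.log m) ^ (1 + κ) ≤ (Real.log m) ^ (1 + κ') :=
              Real.rpow_le_rpow_of_exponent_le h4 (by linarith)
          _ ≤ _ := Real.rpow_le_rpow (by linarith) h3 (by linarith))
  refine ⟨E, hE, fun z hz hzE => ?_⟩
  obtain ⟨n0, hn0⟩ := h z hz hzE
  refine ⟨n0, fun n hn m hm1 hm x hx1 hx2 => ?_⟩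
  by_contra hcon
  push Not at hcon
  exact absurd hm (not_le.2 (hn0 n hn m ⟨hm1, x, hx1, hx2, hcon⟩))

theorem window_law {s C : ℝ} (hs : 1 / 2 < s) (hs1 : s < 1) (hC : 1 < C)
    (hCs : s * (1 - s) < C * (2 * s - 1)) :
    ∃ κ : ℝ, 0 < κ ∧ ∀ (ν : ℕ → ℝ) (θ β : ℝ), Tendsto (fun n : ℕ => ν n / Real.log n) atTop atTop →
      0 < β → θ < 1 → ∃ E : Set ℝ, dimH E ≤ ENNReal.ofReal (s / (1 - θ)) ∧
        ∀ z : ℝ, 1 < z → z ∉ E → Law ν θ β z C κ := by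
  classical
  have h2s : 0 < 2 * s - 1 := by linarith
  -- a smaller exponent
  obtain ⟨C₀, hC1, hC0C, hC0s⟩ : ∃ C₀ : ℝ, 1 < C₀ ∧ C₀ < C ∧ s * (1 - s) < C₀ * (2 * s - 1) := by
    have h1 : s * (1 - s) / (2 * s - 1) < C := by
      rw [div_lt_iff₀ h2s]
      exact hCs
    obtain ⟨C0, h2, h3⟩ := exists_between (max_lt hC h1)
    refine ⟨C0, lt_of_le_of_lt (le_max_left _ _) h2, h3, ?_⟩
    have h4 := lt_of_le_of_lt (le_max_right _ _) h2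
    rwa [div_lt_iff₀ h2s] at h4
  obtain ⟨κ₁, hκ₁, hA⟩ := AllExponents.result s C₀ hs hs1 hC1 hC0s
  obtain ⟨κ₂, hκ₂, hB⟩ := FewExceptions.result s C₀ hs hs1 hC1 hC0s
  refine ⟨min κ₁ κ₂, lt_min hκ₁ hκ₂, fun ν θ β hν hβ hθ1 => ?_⟩
  have hκ : 0 < min κ₁ κ₂ := lt_min hκ₁ hκ₂
  -- the first law
  have hfirst : ∀ e : ({D : ℤ // Squarefree D ∧ D % 4 = 1 ∧ D ≠ 1} × {b : ℤ // b ≠ 0}) ×
      ({p : ℕ × ℕ // Squarefree p.1 ∧ Odd p.1 ∧ Adapted p.1 p.2} × ℕ),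
      ∃ E : Set ℝ, dimH E ≤ ENNReal.ofReal (s / (1 - θ)) ∧ ∀ z : ℝ, 1 < z → z ∉ E →
      ∃ n0 : ℕ, ∀ n : ℕ, n0 ≤ n → ∀ m : ℕ, 1 ≤ m → |(m : ℝ) - β * z ^ ν n| ≤ z ^ (θ * ν n) →
        ∀ x : ℕ, (m : ℝ) ^ C ≤ x → (x : ℝ) ≤ Real.exp ((Real.log m) ^ (1 + min κ₁ κ₂)) →
        |(P e.2.1.1.1 ((e.1.1 : ℤ) * (e.1.2 : ℤ) ^ 2 * (m : ℤ) ^ e.2.1.1.2) x : ℝ) -
          δ (e.1.1 : ℤ) e.2.1.1.1 * (Nat.primeCounting x : ℝ)| ≤
            (1 / ((e.2.2 : ℝ) + 1)) * (Nat.primeCounting x : ℝ) := by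
    rintro ⟨⟨⟨D, hD, hD4, hD1⟩, ⟨b, hb⟩⟩, ⟨⟨⟨r, k⟩, hr, hro, hk1, hk2, hk3⟩, j⟩⟩
    obtain ⟨N₀, hN₀⟩ := (hA D hD hD4 hD1 b hb r hr hro).2 (1 / ((j : ℝ) + 1)) (by positivity)
    exact one (κ' := κ₁) hν hβ (by linarith) hθ1 (by linarith) hC0C hκ (min_le_left _ _)
      (fun m x => (P r (D * b ^ 2 * (m : ℤ) ^ k) x : ℝ)) (δ D r) (1 / ((j : ℝ) + 1))
      (fun N => (Finset.Icc 1 N).filter (fun m : ℕ => ∃ x : ℕ, (N : ℝ) ^ C₀ ≤ x ∧
          (x : ℝ) ≤ Real.exp ((Real.log N) ^ (1 + κ₁)) ∧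
          (1 / ((j : ℝ) + 1)) * (Nat.primeCounting x : ℝ) <
            |(P r (D * b ^ 2 * (m : ℤ) ^ k) x : ℝ) - δ D r * (Nat.primeCounting x : ℝ)|)) N₀
      (fun N hN => hN₀ N hN k hk1 hk2 hk3)
      (fun N m hm1 hmN hx => Finset.mem_filter.2 ⟨Finset.mem_Icc.2 ⟨hm1, hmN⟩, hx⟩)
  have hsecond : ∀ e : {D : ℤ // D ≠ 0} × ℕ,
      ∃ E : Set ℝ, dimH E ≤ ENNReal.ofReal (s / (1 - θ)) ∧ ∀ z : ℝ, 1 < z → z ∉ E →
      ∃ n0 : ℕ, ∀ n : ℕ, n0 ≤ n → ∀ m : ℕ, 1 ≤ m → |(m : ℝ) - β * z ^ ν n| ≤ z ^ (θ * ν n) →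
        ∀ x : ℕ, (m : ℝ) ^ C ≤ x → (x : ℝ) ≤ Real.exp ((Real.log m) ^ (1 + min κ₁ κ₂)) →
        |(R ((e.1 : ℤ) * (m : ℤ)) x : ℝ) - artin * (Nat.primeCounting x : ℝ)| ≤
            (1 / ((e.2 : ℝ) + 1)) * (Nat.primeCounting x : ℝ) := by
    rintro ⟨⟨D, hD⟩, j⟩
    obtain ⟨N₀, hN₀⟩ := hB D hD (1 / ((j : ℝ) + 1)) (by positivity)
    exact one (κ' := κ₂) hν hβ (by linarith) hθ1 (by linarith) hC0C hκ (min_le_right _ _)
      (fun m x => (R (D * (m : ℤ)) x : ℝ)) artin (1 / ((j : ℝ) + 1))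
      (fun N => (Finset.Icc 1 N).filter (fun m : ℕ => ∃ x : ℕ, (N : ℝ) ^ C₀ ≤ x ∧
          (x : ℝ) ≤ Real.exp ((Real.log N) ^ (1 + κ₂)) ∧
          (1 / ((j : ℝ) + 1)) * (Nat.primeCounting x : ℝ) <
            |(R (D * (m : ℤ)) x : ℝ) - artin * (Nat.primeCounting x : ℝ)|)) N₀
      (fun N hN => by
        refine le_trans (le_of_eq ?_) (hN₀ N hN)
        unfold R artin
        rfl)
      (fun N m hm1 hmN hx => Finset.mem_filter.2 ⟨Finset.mem_Icc.2 ⟨hm1, hmN⟩, hx⟩)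
  choose E₁ hE₁ h₁ using hfirst
  choose E₂ hE₂ h₂ using hsecond
  refine ⟨(⋃ e, E₁ e) ∪ ⋃ e, E₂ e, ?_, fun z hz hzE => ?_⟩
  · rw [dimH_union, dimH_iUnion, dimH_iUnion]
    exact max_le (iSup_le hE₁) (iSup_le hE₂)
  obtain ⟨n1, hn1'⟩ := Pool.Agent.V11001.KM.large_of_near hν hβ hθ1 hz 1
  have hn1 : ∀ n : ℕ, n1 ≤ n → ∀ m : ℕ, |(m : ℝ) - β * z ^ ν n| ≤ z ^ (θ * ν n) → 1 ≤ m := fun n hn m hm => by
    exact_mod_cast hn1' n hn m hm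
  refine ⟨fun D hD hD4 hD1 b hb r hr hro k hk ε hε => ?_, fun D hD ε hε => ?_⟩
  · obtain ⟨j, hj⟩ := exists_nat_one_div_lt hε
    obtain ⟨n0, hn0⟩ := h₁ ⟨⟨⟨D, hD, hD4, hD1⟩, ⟨b, hb⟩⟩, ⟨⟨⟨r, k⟩, hr, hro, hk⟩, j⟩⟩ z hz
      (fun h => hzE (Or.inl (Set.mem_iUnion.2 ⟨_, h⟩)))
    refine ⟨max n0 n1, fun n hn m hm x hx1 hx2 => ?_⟩
    refine (hn0 n ((le_max_left _ _).trans hn) m (hn1 n ((le_max_right _ _).trans hn) m hm) hm x
      hx1 hx2).trans ?_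
    exact mul_le_mul_of_nonneg_right hj.le (Nat.cast_nonneg _)
  · obtain ⟨j, hj⟩ := exists_nat_one_div_lt hε
    obtain ⟨n0, hn0⟩ := h₂ ⟨⟨D, hD⟩, j⟩ z hz
      (fun h => hzE (Or.inr (Set.mem_iUnion.2 ⟨_, h⟩)))
    refine ⟨max n0 n1, fun n hn m hm x hx1 hx2 => ?_⟩
    refine (hn0 n ((le_max_left _ _).trans hn) m (hn1 n ((le_max_right _ _).trans hn) m hm) hm x
      hx1 hx2).trans ?_
    exact mul_le_mul_of_nonneg_right hj.le (Nat.cast_nonneg _)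

/-- **Theorem.** Let `ν n / log n → ∞`, `β > 0` and `θ < 1`.
(1) Let `1/2 < s < 1` and `C > 1` with `s (1 - s) < C (2 s - 1)`. There is `κ > 0`, depending on `s` and `C` only, such
that for all `z > 1` outside a set of Hausdorff dimension at most `s / (1 - θ)` the law holds for all integers near the
numbers `β z ^ (ν n)`.
(2) For all `z > 1` outside a set of Hausdorff dimension at most `(1/2) / (1 - θ)` the law holds for some `C` and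
`κ > 0` which depend on `z`.
(3) The main term is positive. -/
theorem result :
    (∀ s C : ℝ, 1 / 2 < s → s < 1 → 1 < C → s * (1 - s) < C * (2 * s - 1) →
      ∃ κ : ℝ, 0 < κ ∧ ∀ (ν : ℕ → ℝ) (θ β : ℝ), Tendsto (fun n : ℕ => ν n / Real.log n) atTop atTop →
        0 < β → θ < 1 → ∃ E : Set ℝ, dimH E ≤ ENNReal.ofReal (s / (1 - θ)) ∧
          ∀ z : ℝ, 1 < z → z ∉ E → Law ν θ β z C κ) ∧
    (∀ (ν : ℕ → ℝ) (θ β : ℝ), Tendsto (fun n : ℕ => ν n / Real.log n) atTop atTop → 0 < β → θ < 1 →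
      ∃ E : Set ℝ, dimH E ≤ ENNReal.ofReal ((1 / 2) / (1 - θ)) ∧
        ∀ z : ℝ, 1 < z → z ∉ E → ∃ C κ : ℝ, 1 < C ∧ 0 < κ ∧ Law ν θ β z C κ) ∧
    (∀ D : ℤ, Squarefree D → D % 4 = 1 → D ≠ 1 → ∀ r : ℕ, Squarefree r → Odd r → 0 < δ D r) := by
  refine ⟨fun s C hs hs1 hC hCs => window_law hs hs1 hC hCs, ?_, ?_⟩
  · intro ν θ β hν hβ hθ1
    have h1θ : 0 < 1 - θ := by linarith
    have hj : ∀ j : ℕ, ∃ E : Set ℝ,
        dimH E ≤ ENNReal.ofReal ((1 / 2 + 1 / ((j : ℝ) + 3)) / (1 - θ)) ∧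
        ∀ z : ℝ, 1 < z → z ∉ E → ∃ C κ : ℝ, 1 < C ∧ 0 < κ ∧ Law ν θ β z C κ := by
      intro j
      have hj0 : (0 : ℝ) < (j : ℝ) + 3 := by positivity
      have hj1 : (0 : ℝ) < 1 / ((j : ℝ) + 3) := by positivity
      have hj2 : 1 / ((j : ℝ) + 3) ≤ 1 / 3 :=
        one_div_le_one_div_of_le (by norm_num) (by linarith [(Nat.cast_nonneg j : (0 : ℝ) ≤ j)])
      obtain ⟨κ, hκ, h⟩ := window_law (s := 1 / 2 + 1 / ((j : ℝ) + 3)) (C := (j : ℝ) + 3)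
        (by linarith) (by linarith) (by linarith [(Nat.cast_nonneg j : (0 : ℝ) ≤ j)]) (by
          have h1 : ((j : ℝ) + 3) * (2 * (1 / 2 + 1 / ((j : ℝ) + 3)) - 1) = 2 := by
            field_simp
            ring
          rw [h1]
          nlinarith)
      obtain ⟨E, hE, h2⟩ := h ν θ β hν hβ hθ1
      exact ⟨E, hE, fun z hz hzE => ⟨(j : ℝ) + 3, κ,
        by linarith [(Nat.cast_nonneg j : (0 : ℝ) ≤ j)], hκ, h2 z hz hzE⟩⟩
    choose E hE h using hj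
    refine ⟨⋂ j, E j, ?_, fun z hz hzE => ?_⟩
    · have hlim : Tendsto (fun j : ℕ => ENNReal.ofReal ((1 / 2 + 1 / ((j : ℝ) + 3)) / (1 - θ)))
          atTop (𝓝 (ENNReal.ofReal ((1 / 2 + 0) / (1 - θ)))) := by
        refine ENNReal.tendsto_ofReal (Tendsto.div_const ?_ _)
        refine Tendsto.const_add _ ?_
        have h1 : Tendsto (fun j : ℕ => (j : ℝ) + 3) atTop atTop :=
          tendsto_atTop_add_const_right _ _ tendsto_natCast_atTop_atTop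
        simp only [one_div]
        exact h1.inv_tendsto_atTop
      rw [add_zero] at hlim
      refine ge_of_tendsto' hlim fun j => ?_
      exact (dimH_mono (Set.iInter_subset _ j)).trans (hE j)
    · rw [Set.mem_iInter] at hzE
      push Not at hzE
      obtain ⟨j, hj⟩ := hzE
      exact h j z hz hj
  · intro D hD hD4 hD1 r hr hro
    obtain ⟨κ, -, hA⟩ := AllExponents.result (3 / 4) 2 (by norm_num) (by norm_num) (by norm_num)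
      (by norm_num)
    exact (hA D hD hD4 hD1 1 one_ne_zero r hr hro).1

end Pool.Agent.Results.MP_991e92_nt.IntegersNearPowers
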