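import Mathlib
import Pool.Agent.Results.MP_991e92_nt.PrimeMultiples
import Pool.Agent.V11109.WIN.Dyad

/-! # The density of Q1 for the multiples `m q` of ALL primes `q` in windows, for every `x` up to
`exp (q ^ a)`

`P n x` is the number of primes `p ≤ x` modulo which `n` is a primitive root, and `δ n'` the density
of Q1 for the integers with squarefree part `n'`.

Let `v ≥ 1` be any sequence with exponent of convergence at most `τ` (`1 / b` for `v n = (n + 1) ^ b`,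
and `0` for `v n = b ^ n`), and let `θ < 1`. Let `0 < a < 1 / 4`, `1 / 2 + 2 a < s < 1` and `C > 1` with
`s (1 - s) < C (2 s - 1)`.  For all `α > 0` outside a set of Hausdorff dimension at most
`(s + τ) / (1 - θ)`, for every integer `m ≠ 0` and every `ε > 0`, for all large `n` ALL the primes `q`
with `|q - α v n| ≤ (v n) ^ θ` have the following property: if the squarefree part `n'` of `m q` is
`1 mod 4`, then `|P (m q) x - δ n' π(x)| ≤ ε π(x)` for EVERY `x` with `q ^ C ≤ x ≤ exp (q ^ a)`.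

For the `α` outside a set of dimension at most `(1 / 2 + τ) / (1 - θ)` this holds with some exponents
`C > 1` and `a > 0`. -/

set_option autoImplicit false

open Filter Topology

namespace Pool.Agent.Results.MP_991e92_nt.PrimeWindows

open PrimeMultiples (P δ)

/-- the exponent of convergence of the sequence `v` is at most `τ` -/
def ExpLe (v : ℕ → ℝ) (τ : ℝ) : Prop := ∀ t : ℝ, τ < t → Summable (fun n : ℕ => (v n) ^ (-t))

/-- for every `m ≠ 0` and `ε > 0`, for all large `n`, all the primes `q` in the window around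
`α v n` and all `x` between `q ^ C` and `exp (q ^ a)`: the number of primes `p ≤ x` with the primitive
root `m q` is that of Q1, up to the relative error `ε` -/
def Law (v : ℕ → ℝ) (θ α C a : ℝ) : Prop :=
  ∀ m : ℤ, m ≠ 0 → ∀ ε : ℝ, 0 < ε → ∃ n₀ : ℕ, ∀ n : ℕ, n₀ ≤ n → ∀ q : ℕ, q.Prime →
    |(q : ℝ) - α * v n| ≤ (v n) ^ θ →
    ∀ n' : ℤ, Squarefree n' → n' % 4 = 1 → (∃ k : ℤ, m * q = n' * k ^ 2) →
    ∀ x : ℕ, (q : ℝ) ^ C ≤ x → (x : ℝ) ≤ Real.exp ((q : ℝ) ^ a) →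
      |(P (m * q) x : ℝ) - δ n' * (Nat.primeCounting x : ℝ)| ≤ ε * (Nat.primeCounting x : ℝ)

theorem window_law {a s C : ℝ} (ha : 0 < a) (hs : 1 / 2 + 2 * a < s) (hs1 : s < 1) (hC : 1 < C)
    (hCs : s * (1 - s) < C * (2 * s - 1)) (v : ℕ → ℝ) (τ θ : ℝ) (hpos : ∀ n, 1 ≤ v n) (hτ : 0 ≤ τ)
    (hv : ExpLe v τ) (hθ1 : θ < 1) :
    ∃ E : Set ℝ, dimH E ≤ ENNReal.ofReal ((s + τ) / (1 - θ)) ∧
      ∀ α : ℝ, 0 < α → α ∉ E → Law v θ α C a := by
  classical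
  have h2s : 0 < 2 * s - 1 := by linarith
  -- a smaller exponent
  obtain ⟨C₀, hC1, hC0C, hC0s⟩ : ∃ C₀ : ℝ, 1 < C₀ ∧ C₀ < C ∧ s * (1 - s) < C₀ * (2 * s - 1) := by
    have h1 : s * (1 - s) / (2 * s - 1) < C := by
      rw [div_lt_iff₀ h2s]
      exact hCs
    obtain ⟨C0, h2, h3⟩ := exists_between (max_lt hC h1)
    refine ⟨C0, lt_of_le_of_lt (le_max_left _ _) h2, h3, ?_⟩
    have h4 := lt_of_le_of_lt (le_max_right _ _) h2
    rwa [div_lt_iff₀ h2s] at h4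
  have hone : ∀ e : {m : ℤ // m ≠ 0} × ℕ,
      ∃ E : Set ℝ, dimH E ≤ ENNReal.ofReal ((s + τ) / (1 - θ)) ∧ ∀ α : ℝ, 0 < α → α ∉ E →
      ∃ n₀ : ℕ, ∀ n : ℕ, n₀ ≤ n → ∀ q : ℕ, q.Prime → |(q : ℝ) - α * v n| ≤ (v n) ^ θ →
      ∀ n' : ℤ, Squarefree n' → n' % 4 = 1 → (∃ k : ℤ, (e.1 : ℤ) * q = n' * k ^ 2) →
      ∀ x : ℕ, (q : ℝ) ^ C ≤ x → (x : ℝ) ≤ Real.exp ((q : ℝ) ^ a) →
        |(P ((e.1 : ℤ) * q) x : ℝ) - δ n' * (Nat.primeCounting x : ℝ)| ≤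
          (1 / ((e.2 : ℝ) + 1)) * (Nat.primeCounting x : ℝ) := by
    rintro ⟨⟨m, hm⟩, j⟩
    obtain ⟨y₀, hy₀⟩ := PrimeMultiples.result a s C₀ ha hs hs1 hC1 hC0s (1 / ((j : ℝ) + 1))
      (by positivity)
    -- the size of `m`
    obtain ⟨y₁, hy₁⟩ : ∃ y₁ : ℕ, ∀ y : ℕ, y₁ ≤ y → Real.log |(m : ℝ)| ≤ √(y : ℝ) := by
      obtain ⟨K, hK⟩ := exists_nat_ge (Real.log |(m : ℝ)|)
      refine ⟨K ^ 2, fun y hy => hK.trans ?_⟩
      refine Real.le_sqrt_of_sq_le ?_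
      exact_mod_cast hy
    set S : Set ℕ := {q | q.Prime ∧ ∃ n' : ℤ, Squarefree n' ∧ n' % 4 = 1 ∧
      (∃ k : ℤ, m * q = n' * k ^ 2) ∧ ∃ x : ℕ, (q : ℝ) ^ C ≤ x ∧
      (x : ℝ) ≤ Real.exp ((q : ℝ) ^ a) ∧ (1 / ((j : ℝ) + 1)) * (Nat.primeCounting x : ℝ) <
        |(P (m * q) x : ℝ) - δ n' * (Nat.primeCounting x : ℝ)|} with hSdef
    obtain ⟨E, hE, h⟩ := Pool.Agent.V11109.WIN.windows_of_bad hpos hτ hv (by linarith : 0 < s) hθ1 S
      (fun y => (Finset.range (y + 1)).filter (fun q : ℕ => q.Prime ∧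
        ∃ n' : ℤ, Squarefree n' ∧ n' % 4 = 1 ∧ (∃ k : ℤ, m * q = n' * k ^ 2) ∧
        ∃ x : ℕ, (y : ℝ) ^ C₀ ≤ x ∧ (x : ℝ) ≤ Real.exp ((y : ℝ) ^ a) ∧
          (1 / ((j : ℝ) + 1)) * (Nat.primeCounting x : ℝ) <
            |(P (m * q) x : ℝ) - δ n' * (Nat.primeCounting x : ℝ)|)) (max y₀ y₁)
      (fun y hy => hy₀ y ((le_max_left _ _).trans hy) m hm (hy₁ y ((le_max_right _ _).trans hy)))
      ⌈C₀ / (C - C₀)⌉₊ (by
        rintro i hi q ⟨hq, n', h1, h2, h3, x, hx1, hx2, hx3⟩ hqi hqi2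
        refine Finset.mem_filter.2 ⟨Finset.mem_range.2 (by omega), hq, n', h1, h2, h3, x, ?_, ?_, hx3⟩
        · exact (Pool.Agent.V11109.WIN.pow_block (by linarith) hC0C
            ((Nat.le_ceil _).trans (by exact_mod_cast hi)) hqi).trans hx1
        · refine hx2.trans (Real.exp_le_exp.2 ?_)
          have h4 : (q : ℝ) ≤ ((2 ^ (i + 1) : ℕ) : ℝ) := by exact_mod_cast hqi2
          exact Real.rpow_le_rpow (Nat.cast_nonneg _) h4 ha.le)
    refine ⟨E, hE, fun α hα hαE => ?_⟩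
    obtain ⟨n0, hn0⟩ := h α hα hαE
    refine ⟨n0, fun n hn q hq hw n' h1 h2 h3 x hx1 hx2 => ?_⟩
    by_contra hcon
    push Not at hcon
    exact absurd hw (not_le.2 (hn0 n hn q ⟨hq, n', h1, h2, h3, x, hx1, hx2, hcon⟩))
  choose E hE h using hone
  refine ⟨⋃ e, E e, ?_, fun α hα hαE m hm ε hε => ?_⟩
  · rw [dimH_iUnion]
    exact iSup_le hE
  · obtain ⟨j, hj⟩ := exists_nat_one_div_lt hε
    obtain ⟨n0, hn0⟩ := h ⟨⟨m, hm⟩, j⟩ α hα (fun h => hαE (Set.mem_iUnion.2 ⟨_, h⟩))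
    refine ⟨n0, fun n hn q hq hw n' h1 h2 h3 x hx1 hx2 =>
      (hn0 n hn q hq hw n' h1 h2 h3 x hx1 hx2).trans ?_⟩
    exact mul_le_mul_of_nonneg_right hj.le (Nat.cast_nonneg _)

theorem result (v : ℕ → ℝ) (τ θ : ℝ) (hpos : ∀ n, 1 ≤ v n) (hτ : 0 ≤ τ) (hv : ExpLe v τ)
    (hθ1 : θ < 1) :
    -- 1. given exponents
    (∀ a s C : ℝ, 0 < a → 1 / 2 + 2 * a < s → s < 1 → 1 < C → s * (1 - s) < C * (2 * s - 1) →
      ∃ E : Set ℝ, dimH E ≤ ENNReal.ofReal ((s + τ) / (1 - θ)) ∧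
        ∀ α : ℝ, 0 < α → α ∉ E → Law v θ α C a) ∧
    -- 2. a smaller exceptional set, with exponents which depend on `α`
    (∃ E : Set ℝ, dimH E ≤ ENNReal.ofReal ((1 / 2 + τ) / (1 - θ)) ∧
      ∀ α : ℝ, 0 < α → α ∉ E → ∃ C a : ℝ, 1 < C ∧ 0 < a ∧ Law v θ α C a) := by
  refine ⟨fun a s C ha hs hs1 hC hCs => window_law ha hs hs1 hC hCs v τ θ hpos hτ hv hθ1, ?_⟩
  have h1θ : 0 < 1 - θ := by linarith
  have hj : ∀ j : ℕ, ∃ E : Set ℝ,
      dimH E ≤ ENNReal.ofReal ((1 / 2 + 1 / ((j : ℝ) + 3) + τ) / (1 - θ)) ∧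
      ∀ α : ℝ, 0 < α → α ∉ E → ∃ C a : ℝ, 1 < C ∧ 0 < a ∧ Law v θ α C a := by
    intro j
    have hj0 : (0 : ℝ) < (j : ℝ) + 3 := by positivity
    have hj1 : (0 : ℝ) < 1 / ((j : ℝ) + 3) := by positivity
    have hj2 : 1 / ((j : ℝ) + 3) ≤ 1 / 3 :=
      one_div_le_one_div_of_le (by norm_num) (by linarith [(Nat.cast_nonneg j : (0 : ℝ) ≤ j)])
    obtain ⟨E, hE, h⟩ := window_law (a := 1 / ((j : ℝ) + 3) / 4)
      (s := 1 / 2 + 1 / ((j : ℝ) + 3)) (C := (j : ℝ) + 3) (by positivity)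
      (by linarith) (by linarith) (by linarith [(Nat.cast_nonneg j : (0 : ℝ) ≤ j)]) (by
        have h1 : ((j : ℝ) + 3) * (2 * (1 / 2 + 1 / ((j : ℝ) + 3)) - 1) = 2 := by
          field_simp
          ring
        rw [h1]
        nlinarith) v τ θ hpos hτ hv hθ1
    exact ⟨E, hE, fun α hα hαE => ⟨(j : ℝ) + 3, _,
      by linarith [(Nat.cast_nonneg j : (0 : ℝ) ≤ j)], by positivity, h α hα hαE⟩⟩
  choose E hE h using hj
  refine ⟨⋂ j, E j, ?_, fun α hα hαE => ?_⟩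
  · have hlim : Tendsto (fun j : ℕ => ENNReal.ofReal ((1 / 2 + 1 / ((j : ℝ) + 3) + τ) / (1 - θ)))
        atTop (𝓝 (ENNReal.ofReal ((1 / 2 + 0 + τ) / (1 - θ)))) := by
      refine ENNReal.tendsto_ofReal (Tendsto.div_const ?_ _)
      refine Tendsto.add_const _ (Tendsto.const_add _ ?_)
      have h1 : Tendsto (fun j : ℕ => (j : ℝ) + 3) atTop atTop :=
        tendsto_atTop_add_const_right _ _ tendsto_natCast_atTop_atTop
      simp only [one_div]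
      exact h1.inv_tendsto_atTop
    rw [add_zero] at hlim
    refine ge_of_tendsto' hlim fun j => ?_
    exact (dimH_mono (Set.iInter_subset _ j)).trans (hE j)
  · rw [Set.mem_iInter] at hαE
    push Not at hαE
    obtain ⟨j, hj⟩ := hαE
    exact h j α hα hj

end Pool.Agent.Results.MP_991e92_nt.PrimeWindows
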