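import Mathlib
import Pool.Agent.Results.MP_991e92_nt.AllExponents
import Pool.Agent.Results.MP_991e92_nt.FewExceptions
import Pool.Agent.V11109.WIN.Dyad

/-! # Artin's density with correction factor for ALL integers in windows around thin sequences

`P r n x` is the number of primes `p ≤ x` with `gcd (p - 1, r) = 1` modulo which `n` is a primitive
root, and `δ D r` the expected density, with its correction factor (for `r = 1` all primes are counted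
and `δ D 1` is the density of Q1 for the integers with squarefree part `D ≡ 1 mod 4`).

Let `v ≥ 1` be any sequence with exponent of convergence at most `τ` (`1 / b` for `v n = (n + 1) ^ b`,
and `0` for `v n = b ^ n`), and let `θ < 1`. For all `α > 0` outside a set of Hausdorff dimension at
most `(1 / 2 + τ) / (1 - θ)` there are `C` and `κ > 0` such that for all large `n` ALL the integers `m`
with `|m - α v n| ≤ (v n) ^ θ` have the following properties, for EVERY `x` with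
`m ^ C ≤ x ≤ exp ((log m) ^ (1 + κ))`:

* for every `D ≡ 1 mod 4`, squarefree, different from `1`, every `b ≠ 0`, every odd squarefree `r` and
  every even exponent `k` all of whose odd prime factors divide `r` (for instance `b = 1`, `r = 1`, `k = 2`),
  `P r (D b² m ^ k) x = (δ D r + o(1)) π(x)`;
* for every `D ≠ 0` the number of primes `p ≤ x` with primitive root `D m` is `(A + o(1)) π(x)`,
  where `A` is Artin's constant.

For given `s` in `(1/2, 1)` the exceptional set with the exponent `s` in the place of `1 / 2` allows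
every `C > 1` with `C (2 s - 1) > s (1 - s)`; `C` and `κ` depend on `s` only. -/

set_option autoImplicit false

open Filter Topology

namespace Pool.Agent.Results.MP_991e92_nt.SequenceWindows

open AllExponents (P δ)

/-- the exponent of convergence of the sequence `v` is at most `τ` -/
def ExpLe (v : ℕ → ℝ) (τ : ℝ) : Prop := ∀ t : ℝ, τ < t → Summable (fun n : ℕ => (v n) ^ (-t))

/-- Artin's constant -/
noncomputable def artin : ℝ :=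
  ∏' p : Nat.Primes, (1 - 1 / (((p : ℕ) : ℝ) * (((p : ℕ) : ℝ) - 1)))

/-- the number of primes `p ≤ x` modulo which `n` is a primitive root -/
noncomputable def R (n : ℤ) (x : ℕ) : ℕ := by
  classical
  exact ((Finset.range (x + 1)).filter (fun p : ℕ => p.Prime ∧ orderOf (n : ZMod p) = p - 1)).card

/-- the exponent `k` is even and its odd prime factors divide `r` -/
def Adapted (r k : ℕ) : Prop :=
  1 ≤ k ∧ 2 ∣ k ∧ ∀ l : ℕ, l.Prime → l ∣ k → l ≠ 2 → l ∣ r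

/-- for all large `n`, all the integers in the window around `α v n` and all `x` between `m ^ C` and
`exp ((log m) ^ (1 + κ))`: the asymptotic formulas for `D b² m ^ k` and for `D m` -/
def Law (v : ℕ → ℝ) (θ α C κ : ℝ) : Prop :=
  (∀ D : ℤ, Squarefree D → D % 4 = 1 → D ≠ 1 → ∀ b : ℤ, b ≠ 0 → ∀ r : ℕ, Squarefree r → Odd r →
    ∀ k : ℕ, Adapted r k → ∀ ε : ℝ, 0 < ε → ∃ n₀ : ℕ, ∀ n : ℕ, n₀ ≤ n → ∀ m : ℕ,
      |(m : ℝ) - α * v n| ≤ (v n) ^ θ → ∀ x : ℕ, (m : ℝ) ^ C ≤ x →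
        (x : ℝ) ≤ Real.exp ((Real.log m) ^ (1 + κ)) →
        |(P r (D * b ^ 2 * (m : ℤ) ^ k) x : ℝ) - δ D r * (Nat.primeCounting x : ℝ)| ≤
          ε * (Nat.primeCounting x : ℝ)) ∧
  (∀ D : ℤ, D ≠ 0 → ∀ ε : ℝ, 0 < ε → ∃ n₀ : ℕ, ∀ n : ℕ, n₀ ≤ n → ∀ m : ℕ,
      |(m : ℝ) - α * v n| ≤ (v n) ^ θ → ∀ x : ℕ, (m : ℝ) ^ C ≤ x →
        (x : ℝ) ≤ Real.exp ((Real.log m) ^ (1 + κ)) →
        |(R (D * (m : ℤ)) x : ℝ) - artin * (Nat.primeCounting x : ℝ)| ≤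
          ε * (Nat.primeCounting x : ℝ))

/-- one asymptotic formula -/
lemma one {v : ℕ → ℝ} {s τ θ C₀ C κ κ' : ℝ} (hpos : ∀ n, 1 ≤ v n) (hτ : 0 ≤ τ)
    (hv : Pool.Agent.Y854.GM.ExpLe v τ) (hs : 0 < s) (hθ1 : θ < 1) (hC₀ : 0 < C₀) (hC : C₀ < C)
    (hκ : 0 < κ) (hκ' : κ ≤ κ') (G : ℕ → ℕ → ℝ) (a ε : ℝ) (bad : ℕ → Finset ℕ) (N₀ : ℕ)
    (hbad : ∀ N : ℕ, N₀ ≤ N → ((bad N).card : ℝ) ≤ (N : ℝ) ^ s)
    (hmem : ∀ N m : ℕ, 1 ≤ m → m ≤ N → (∃ x : ℕ, (N : ℝ) ^ C₀ ≤ x ∧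
      (x : ℝ) ≤ Real.exp ((Real.log N) ^ (1 + κ')) ∧
      ε * (Nat.primeCounting x : ℝ) < |G m x - a * (Nat.primeCounting x : ℝ)|) → m ∈ bad N) :
    ∃ E : Set ℝ, dimH E ≤ ENNReal.ofReal ((s + τ) / (1 - θ)) ∧ ∀ α : ℝ, 0 < α → α ∉ E →
      ∃ n0 : ℕ, ∀ n : ℕ, n0 ≤ n → ∀ m : ℕ, 1 ≤ m → |(m : ℝ) - α * v n| ≤ (v n) ^ θ →
        ∀ x : ℕ, (m : ℝ) ^ C ≤ x → (x : ℝ) ≤ Real.exp ((Real.log m) ^ (1 + κ)) →
        |G m x - a * (Nat.primeCounting x : ℝ)| ≤ ε * (Nat.primeCounting x : ℝ) := by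
  set S : Set ℕ := {m | 1 ≤ m ∧ ∃ x : ℕ, (m : ℝ) ^ C ≤ x ∧
    (x : ℝ) ≤ Real.exp ((Real.log m) ^ (1 + κ)) ∧
    ε * (Nat.primeCounting x : ℝ) < |G m x - a * (Nat.primeCounting x : ℝ)|} with hSdef
  obtain ⟨E, hE, h⟩ := Pool.Agent.V11109.WIN.windows_of_bad hpos hτ hv hs hθ1 S bad N₀ hbad
    (max 2 ⌈C₀ / (C - C₀)⌉₊) (by
      rintro i hi m ⟨hm1, x, hx1, hx2, hx3⟩ hmi hmi2
      have hi2 : ⌈C₀ / (C - C₀)⌉₊ ≤ i := (le_max_right _ _).trans hi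
      have hi3 : 2 ≤ i := (le_max_left _ _).trans hi
      refine hmem _ m hm1 hmi2 ⟨x, ?_, ?_, hx3⟩
      · exact (Pool.Agent.V11109.WIN.pow_block hC₀ hC
          ((Nat.le_ceil _).trans (by exact_mod_cast hi2)) hmi).trans hx1
      · refine hx2.trans (Real.exp_le_exp.2 ?_)
        have h0 : 2 ^ 2 ≤ 2 ^ i := Nat.pow_le_pow_right (by norm_num) hi3
        have h1 : (3 : ℝ) ≤ m := by exact_mod_cast (by omega : 3 ≤ m)
        have h2 : (m : ℝ) ≤ ((2 ^ (i + 1) : ℕ) : ℝ) := by exact_mod_cast hmi2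
        have h3 : Real.log m ≤ Real.log ((2 ^ (i + 1) : ℕ) : ℝ) := Real.log_le_log (by linarith) h2
        have h4 : 1 ≤ Real.log m := by
          rw [Real.le_log_iff_exp_le (by linarith)]
          linarith [Real.exp_one_lt_d9]
        calc (Real.log m) ^ (1 + κ) ≤ (Real.log m) ^ (1 + κ') :=
              Real.rpow_le_rpow_of_exponent_le h4 (by linarith)
          _ ≤ _ := Real.rpow_le_rpow (by linarith) h3 (by linarith))
  refine ⟨E, hE, fun α hα hαE => ?_⟩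
  obtain ⟨n0, hn0⟩ := h α hα hαE
  refine ⟨n0, fun n hn m hm1 hm x hx1 hx2 => ?_⟩
  by_contra hcon
  push Not at hcon
  exact absurd hm (not_le.2 (hn0 n hn m ⟨hm1, x, hx1, hx2, hcon⟩))

/-- the integers in the windows are eventually positive -/
lemma pos_of_window {v : ℕ → ℝ} {τ θ : ℝ} (hpos : ∀ n, 1 ≤ v n) (hτ : 0 ≤ τ)
    (hv : Pool.Agent.Y854.GM.ExpLe v τ) (hθ1 : θ < 1) {α : ℝ} (hα : 0 < α) :
    ∃ n0 : ℕ, ∀ n : ℕ, n0 ≤ n → ∀ m : ℕ, |(m : ℝ) - α * v n| ≤ (v n) ^ θ → 1 ≤ m := by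
  have hlim : Tendsto v atTop atTop :=
    Pool.Agent.Y854.GM.tendsto_of_expLe (fun n => lt_of_lt_of_le one_pos (hpos n)) hτ hv
  have h1 : Tendsto (fun n => (v n) ^ (1 - θ)) atTop atTop :=
    (tendsto_rpow_atTop (by linarith : 0 < 1 - θ)).comp hlim
  obtain ⟨n0, hn0⟩ := (h1.eventually (eventually_gt_atTop (1 / α))).exists_forall_of_atTop
  refine ⟨n0, fun n hn m hm => ?_⟩
  by_contra hcon
  have h0 : m = 0 := by omega
  rw [h0, Nat.cast_zero, zero_sub, abs_neg] at hm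
  have hv0 : 0 < v n := lt_of_lt_of_le one_pos (hpos n)
  rw [abs_of_pos (by positivity)] at hm
  have h2 := hn0 n hn
  rw [Real.rpow_sub hv0, Real.rpow_one, div_lt_div_iff₀ hα (Real.rpow_pos_of_pos hv0 _)] at h2
  linarith

theorem window_law {s C : ℝ} (hs : 1 / 2 < s) (hs1 : s < 1) (hC : 1 < C)
    (hCs : s * (1 - s) < C * (2 * s - 1)) :
    ∃ κ : ℝ, 0 < κ ∧ ∀ (v : ℕ → ℝ) (τ θ : ℝ), (∀ n, 1 ≤ v n) → 0 ≤ τ → ExpLe v τ → θ < 1 →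
      ∃ E : Set ℝ, dimH E ≤ ENNReal.ofReal ((s + τ) / (1 - θ)) ∧
        ∀ α : ℝ, 0 < α → α ∉ E → Law v θ α C κ := by
  classical
  have h2s : 0 < 2 * s - 1 := by linarith
  -- a smaller exponent
  obtain ⟨C₀, hC1, hC0C, hC0s⟩ : ∃ C₀ : ℝ, 1 < C₀ ∧ C₀ < C ∧ s * (1 - s) < C₀ * (2 * s - 1) := by
    have h1 : s * (1 - s) / (2 * s - 1) < C := by
      rw [div_lt_iff₀ h2s]
      exact hCs
    obtain ⟨C0, h2, h3⟩ := exists_between (max_lt hC h1)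
    refine ⟨C0, lt_of_le_of_lt (le_max_left _ _) h2, h3, ?_⟩
    have h4 := lt_of_le_of_lt (le_max_right _ _) h2
    rwa [div_lt_iff₀ h2s] at h4
  obtain ⟨κ₁, hκ₁, hA⟩ := AllExponents.result s C₀ hs hs1 hC1 hC0s
  obtain ⟨κ₂, hκ₂, hB⟩ := FewExceptions.result s C₀ hs hs1 hC1 hC0s
  refine ⟨min κ₁ κ₂, lt_min hκ₁ hκ₂, fun v τ θ hpos hτ hv hθ1 => ?_⟩
  have hκ : 0 < min κ₁ κ₂ := lt_min hκ₁ hκ₂
  -- the first law
  have hfirst : ∀ e : ({D : ℤ // Squarefree D ∧ D % 4 = 1 ∧ D ≠ 1} × {b : ℤ // b ≠ 0}) ×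
      ({p : ℕ × ℕ // Squarefree p.1 ∧ Odd p.1 ∧ Adapted p.1 p.2} × ℕ),
      ∃ E : Set ℝ, dimH E ≤ ENNReal.ofReal ((s + τ) / (1 - θ)) ∧ ∀ α : ℝ, 0 < α → α ∉ E →
      ∃ n0 : ℕ, ∀ n : ℕ, n0 ≤ n → ∀ m : ℕ, 1 ≤ m → |(m : ℝ) - α * v n| ≤ (v n) ^ θ →
        ∀ x : ℕ, (m : ℝ) ^ C ≤ x → (x : ℝ) ≤ Real.exp ((Real.log m) ^ (1 + min κ₁ κ₂)) →
        |(P e.2.1.1.1 ((e.1.1 : ℤ) * (e.1.2 : ℤ) ^ 2 * (m : ℤ) ^ e.2.1.1.2) x : ℝ) -
          δ (e.1.1 : ℤ) e.2.1.1.1 * (Nat.primeCounting x : ℝ)| ≤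
            (1 / ((e.2.2 : ℝ) + 1)) * (Nat.primeCounting x : ℝ) := by
    rintro ⟨⟨⟨D, hD, hD4, hD1⟩, ⟨b, hb⟩⟩, ⟨⟨⟨r, k⟩, hr, hro, hk1, hk2, hk3⟩, j⟩⟩
    obtain ⟨N₀, hN₀⟩ := (hA D hD hD4 hD1 b hb r hr hro).2 (1 / ((j : ℝ) + 1)) (by positivity)
    exact one (κ' := κ₁) hpos hτ hv (by linarith) hθ1 (by linarith) hC0C hκ (min_le_left _ _)
      (fun m x => (P r (D * b ^ 2 * (m : ℤ) ^ k) x : ℝ)) (δ D r) (1 / ((j : ℝ) + 1))
      (fun N => (Finset.Icc 1 N).filter (fun m : ℕ => ∃ x : ℕ, (N : ℝ) ^ C₀ ≤ x ∧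
          (x : ℝ) ≤ Real.exp ((Real.log N) ^ (1 + κ₁)) ∧
          (1 / ((j : ℝ) + 1)) * (Nat.primeCounting x : ℝ) <
            |(P r (D * b ^ 2 * (m : ℤ) ^ k) x : ℝ) - δ D r * (Nat.primeCounting x : ℝ)|)) N₀
      (fun N hN => hN₀ N hN k hk1 hk2 hk3)
      (fun N m hm1 hmN hx => Finset.mem_filter.2 ⟨Finset.mem_Icc.2 ⟨hm1, hmN⟩, hx⟩)
  have hsecond : ∀ e : {D : ℤ // D ≠ 0} × ℕ,
      ∃ E : Set ℝ, dimH E ≤ ENNReal.ofReal ((s + τ) / (1 - θ)) ∧ ∀ α : ℝ, 0 < α → α ∉ E →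
      ∃ n0 : ℕ, ∀ n : ℕ, n0 ≤ n → ∀ m : ℕ, 1 ≤ m → |(m : ℝ) - α * v n| ≤ (v n) ^ θ →
        ∀ x : ℕ, (m : ℝ) ^ C ≤ x → (x : ℝ) ≤ Real.exp ((Real.log m) ^ (1 + min κ₁ κ₂)) →
        |(R ((e.1 : ℤ) * (m : ℤ)) x : ℝ) - artin * (Nat.primeCounting x : ℝ)| ≤
            (1 / ((e.2 : ℝ) + 1)) * (Nat.primeCounting x : ℝ) := by
    rintro ⟨⟨D, hD⟩, j⟩
    obtain ⟨N₀, hN₀⟩ := hB D hD (1 / ((j : ℝ) + 1)) (by positivity)
    exact one (κ' := κ₂) hpos hτ hv (by linarith) hθ1 (by linarith) hC0C hκ (min_le_right _ _)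
      (fun m x => (R (D * (m : ℤ)) x : ℝ)) artin (1 / ((j : ℝ) + 1))
      (fun N => (Finset.Icc 1 N).filter (fun m : ℕ => ∃ x : ℕ, (N : ℝ) ^ C₀ ≤ x ∧
          (x : ℝ) ≤ Real.exp ((Real.log N) ^ (1 + κ₂)) ∧
          (1 / ((j : ℝ) + 1)) * (Nat.primeCounting x : ℝ) <
            |(R (D * (m : ℤ)) x : ℝ) - artin * (Nat.primeCounting x : ℝ)|)) N₀
      (fun N hN => by
        refine le_trans (le_of_eq ?_) (hN₀ N hN)
        unfold R artin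
        rfl)
      (fun N m hm1 hmN hx => Finset.mem_filter.2 ⟨Finset.mem_Icc.2 ⟨hm1, hmN⟩, hx⟩)
  choose E₁ hE₁ h₁ using hfirst
  choose E₂ hE₂ h₂ using hsecond
  refine ⟨(⋃ e, E₁ e) ∪ ⋃ e, E₂ e, ?_, fun α hα hαE => ?_⟩
  · rw [dimH_union, dimH_iUnion, dimH_iUnion]
    exact max_le (iSup_le hE₁) (iSup_le hE₂)
  obtain ⟨n1, hn1⟩ := pos_of_window hpos hτ hv hθ1 hα
  refine ⟨fun D hD hD4 hD1 b hb r hr hro k hk ε hε => ?_, fun D hD ε hε => ?_⟩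
  · obtain ⟨j, hj⟩ := exists_nat_one_div_lt hε
    obtain ⟨n0, hn0⟩ := h₁ ⟨⟨⟨D, hD, hD4, hD1⟩, ⟨b, hb⟩⟩, ⟨⟨⟨r, k⟩, hr, hro, hk⟩, j⟩⟩ α hα
      (fun h => hαE (Or.inl (Set.mem_iUnion.2 ⟨_, h⟩)))
    refine ⟨max n0 n1, fun n hn m hm x hx1 hx2 => ?_⟩
    refine (hn0 n ((le_max_left _ _).trans hn) m (hn1 n ((le_max_right _ _).trans hn) m hm) hm x
      hx1 hx2).trans ?_
    exact mul_le_mul_of_nonneg_right hj.le (Nat.cast_nonneg _)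
  · obtain ⟨j, hj⟩ := exists_nat_one_div_lt hε
    obtain ⟨n0, hn0⟩ := h₂ ⟨⟨D, hD⟩, j⟩ α hα
      (fun h => hαE (Or.inr (Set.mem_iUnion.2 ⟨_, h⟩)))
    refine ⟨max n0 n1, fun n hn m hm x hx1 hx2 => ?_⟩
    refine (hn0 n ((le_max_left _ _).trans hn) m (hn1 n ((le_max_right _ _).trans hn) m hm) hm x
      hx1 hx2).trans ?_
    exact mul_le_mul_of_nonneg_right hj.le (Nat.cast_nonneg _)

theorem result :
    -- 1. the exponents in terms of `s`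
    (∀ s C : ℝ, 1 / 2 < s → s < 1 → 1 < C → s * (1 - s) < C * (2 * s - 1) →
      ∃ κ : ℝ, 0 < κ ∧ ∀ (v : ℕ → ℝ) (τ θ : ℝ), (∀ n, 1 ≤ v n) → 0 ≤ τ → ExpLe v τ → θ < 1 →
        ∃ E : Set ℝ, dimH E ≤ ENNReal.ofReal ((s + τ) / (1 - θ)) ∧
          ∀ α : ℝ, 0 < α → α ∉ E → Law v θ α C κ) ∧
    -- 2. a smaller exceptional set, with exponents which depend on `α`
    (∀ (v : ℕ → ℝ) (τ θ : ℝ), (∀ n, 1 ≤ v n) → 0 ≤ τ → ExpLe v τ → θ < 1 →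
      ∃ E : Set ℝ, dimH E ≤ ENNReal.ofReal ((1 / 2 + τ) / (1 - θ)) ∧
        ∀ α : ℝ, 0 < α → α ∉ E → ∃ C κ : ℝ, 1 < C ∧ 0 < κ ∧ Law v θ α C κ) ∧
    -- 3. the main term is positive
    (∀ D : ℤ, Squarefree D → D % 4 = 1 → D ≠ 1 → ∀ r : ℕ, Squarefree r → Odd r → 0 < δ D r) ∧
    -- 4. examples of sequences
    (∀ b : ℝ, 0 < b → ExpLe (fun n : ℕ => ((n : ℝ) + 1) ^ b) (1 / b)) ∧
    (∀ b : ℝ, 1 < b → ExpLe (fun n : ℕ => b ^ n) 0) := by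
  refine ⟨fun s C hs hs1 hC hCs => window_law hs hs1 hC hCs, ?_, ?_,
    Pool.Agent.Y854.GM.expLe_pow, Pool.Agent.Y854.GM.expLe_geom⟩
  · intro v τ θ hpos hτ hv hθ1
    have h1θ : 0 < 1 - θ := by linarith
    have hj : ∀ j : ℕ, ∃ E : Set ℝ,
        dimH E ≤ ENNReal.ofReal ((1 / 2 + 1 / ((j : ℝ) + 3) + τ) / (1 - θ)) ∧
        ∀ α : ℝ, 0 < α → α ∉ E → ∃ C κ : ℝ, 1 < C ∧ 0 < κ ∧ Law v θ α C κ := by
      intro j
      have hj0 : (0 : ℝ) < (j : ℝ) + 3 := by positivity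
      have hj1 : (0 : ℝ) < 1 / ((j : ℝ) + 3) := by positivity
      have hj2 : 1 / ((j : ℝ) + 3) ≤ 1 / 3 :=
        one_div_le_one_div_of_le (by norm_num) (by linarith [(Nat.cast_nonneg j : (0 : ℝ) ≤ j)])
      obtain ⟨κ, hκ, h⟩ := window_law (s := 1 / 2 + 1 / ((j : ℝ) + 3)) (C := (j : ℝ) + 3)
        (by linarith) (by linarith) (by linarith [(Nat.cast_nonneg j : (0 : ℝ) ≤ j)]) (by
          have h1 : ((j : ℝ) + 3) * (2 * (1 / 2 + 1 / ((j : ℝ) + 3)) - 1) = 2 := by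
            field_simp
            ring
          rw [h1]
          nlinarith)
      obtain ⟨E, hE, h2⟩ := h v τ θ hpos hτ hv hθ1
      exact ⟨E, hE, fun α hα hαE => ⟨(j : ℝ) + 3, κ,
        by linarith [(Nat.cast_nonneg j : (0 : ℝ) ≤ j)], hκ, h2 α hα hαE⟩⟩
    choose E hE h using hj
    refine ⟨⋂ j, E j, ?_, fun α hα hαE => ?_⟩
    · have hlim : Tendsto (fun j : ℕ => ENNReal.ofReal ((1 / 2 + 1 / ((j : ℝ) + 3) + τ) / (1 - θ)))
          atTop (𝓝 (ENNReal.ofReal ((1 / 2 + 0 + τ) / (1 - θ)))) := by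
        refine ENNReal.tendsto_ofReal (Tendsto.div_const ?_ _)
        refine Tendsto.add_const _ (Tendsto.const_add _ ?_)
        have h1 : Tendsto (fun j : ℕ => (j : ℝ) + 3) atTop atTop :=
          tendsto_atTop_add_const_right _ _ tendsto_natCast_atTop_atTop
        simp only [one_div]
        exact h1.inv_tendsto_atTop
      rw [add_zero] at hlim
      refine ge_of_tendsto' hlim fun j => ?_
      exact (dimH_mono (Set.iInter_subset _ j)).trans (hE j)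
    · rw [Set.mem_iInter] at hαE
      push Not at hαE
      obtain ⟨j, hj⟩ := hαE
      exact h j α hα hj
  · intro D hD hD4 hD1 r hr hro
    obtain ⟨κ, -, hA⟩ := AllExponents.result (3 / 4) 2 (by norm_num) (by norm_num) (by norm_num)
      (by norm_num)
    exact (hA D hD hD4 hD1 1 one_ne_zero r hr hro).1

end Pool.Agent.Results.MP_991e92_nt.SequenceWindows
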