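import Pool.Agent.V11113.MR.ArtinF
import Pool.Agent.V11113.MR.BilFam

/-!
# Artin's density formula for almost all members of thin families of integers

The families consist of the integers `a + v i`, where `a` is an arbitrary integer and the `v i` are the least residues
modulo an arbitrary large integer `m` of a family with exponential sums `O(#s m ^ (-δ))`, with an arbitrarily small `δ > 0`
(`Small`). Examples (part (3)): the values `x · Q y + f(x) + g(y)` modulo a prime `p` at the pairs of vectors of two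
arbitrary sets with `#A #A' ≥ p ^ (d + 2 δ)`, with arbitrary functions `f` and `g`; for `d = 1` this contains the products of
the elements of two arbitrary sets with `#A #A' ≥ p ^ (1 + 2 δ)` and the multiplicative subgroups of order
`p ^ (1 / 2 + δ)`. Nothing else is assumed about the family; it may have as few as about `m ^ (2 δ)` different members.

Almost all members `n` are primitive roots modulo the expected proportion of the primes `p ≤ x`, for EVERY `x` with
`X ≤ x ≤ m ^ c`, and the squares of the members, multiplied by a fixed squarefree `D ≡ 1 (mod 4)`, have the density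
with the correction factor of the problem.

Method (`V11113.MR.lln`, a law of large numbers for local conditions modulo pairwise coprime moduli): by completion such
a family is equidistributed modulo all `q ≤ m ^ c'` with a power saving; hence the conditions modulo different primes are
nearly independent, the second moment of the number of the primes `p ≤ x` is `O(#s π(x))`, and since only monotone
functions of `x` are involved, all `x` can be treated simultaneously. The mean values over the residue classes are from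
the starting files (H386R2.Artin, H730R2.AA).
-/

set_option autoImplicit false

namespace Pool.Agent.Results.MP_991e92_nt.ThinFamilies

open Finset Matrix

/-- the number of the primes `p ≤ x` modulo which `n` is a primitive root -/
noncomputable def P (n : ℤ) (x : ℕ) : ℕ :=
  ((range (x + 1)).filter (fun p : ℕ => p.Prime ∧ orderOf (n : ZMod p) = p - 1)).card

/-- Artin's constant -/
noncomputable def artin : ℝ := ∏' p : Nat.Primes, (1 - 1 / (((p : ℕ) : ℝ) * (((p : ℕ) : ℝ) - 1)))

/-- the density of Q1 for integers with squarefree part `D`: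
`(1 - μ(|D|) ∏_{q ∣ D} 1 / (q² - q - 1)) ∏_p (1 - 1 / (p (p - 1)))` -/
noncomputable def density (D : ℤ) : ℝ :=
  (1 - ((ArithmeticFunction.moebius D.natAbs : ℤ) : ℝ) *
      ∏ q ∈ D.natAbs.primeFactors, (1 / ((q : ℝ) ^ 2 - (q : ℝ) - 1))) *
    ∏' p : Nat.Primes, (1 - 1 / (((p : ℕ) : ℝ) * (((p : ℕ) : ℝ) - 1)))

/-- The exponential sums over the family `v i ∈ ℤ / m`, `i ∈ s`, at all nonzero frequencies are at most
`#s m ^ (-δ)`. (`ZMod.stdAddChar` is the character `e(x / m)`.) -/
def Small (m : ℕ) [NeZero m] (δ : ℝ) {ι : Type} (s : Finset ι) (v : ι → ZMod m) : Prop :=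
  ∀ b : ZMod m, b ≠ 0 → ‖∑ i ∈ s, (ZMod.stdAddChar (b * v i) : ℂ)‖ ≤ s.card * (m : ℝ) ^ (-δ)

open Classical in
/-- The number of the members `i` of the family for which `|P(n i, x) - d π(x)| > ε π(x)` for SOME `x` with
`X ≤ x ≤ Y`. -/
noncomputable def exceptions {ι : Type} (s : Finset ι) (n : ι → ℤ) (d ε : ℝ) (X : ℕ) (Y : ℝ) : ℕ :=
  (s.filter (fun i => ∃ x : ℕ, X ≤ x ∧ (x : ℝ) ≤ Y ∧
    ε * Nat.primeCounting x < |(P (n i) x : ℝ) - d * Nat.primeCounting x|)).card

/-- Let `δ > 0`. There are `c > 0` and `m₀` such that for every `ε > 0` there is a constant `C` with: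

(1) There is `X₀` such that for all `m ≥ m₀`, all families with `Small m δ s v`, all integers `a` and all `X ≥ X₀`, all but at
most `C #s / π(X)` of the integers `n = a + v i` (`0 ≤ v i < m` the least residue) satisfy
`|P(n, x) - A π(x)| ≤ ε π(x)` for EVERY `x` with `X ≤ x ≤ m ^ c`, where `A` is Artin's constant.

(2) Let `D ≠ 1` be squarefree, `D ≡ 1 (mod 4)`. There is `X₀` such that for all `m ≥ m₀`, all families with `Small m δ s v`,
all integers `a` and all `X ≥ X₀`, all but at most `C #s / π(X)` of the integers `n = D (a + v i) ^ 2` satisfy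
`|P(n, x) - δ(D) π(x)| ≤ ε π(x)` for EVERY `x` with `X ≤ x ≤ m ^ c`, where `δ(D)` is the density of the problem.

(3) `Small p δ` holds for every prime `p`, every `d`, all sets `A`, `A'` of vectors modulo `p` with
`#A #A' ≥ p ^ (d + 2 δ)`, every invertible matrix `Q` and arbitrary functions `f`, `g`, for the family
`x · Q y + f(x) + g(y)`, `x ∈ A`, `y ∈ A'`. -/
theorem result (δ : ℝ) (hδ : 0 < δ) : ∃ c : ℝ, 0 < c ∧ ∃ m₀ : ℕ,
    (∀ ε : ℝ, 0 < ε → ∃ C : ℝ, 0 < C ∧
      (∃ X₀ : ℕ, ∀ (m : ℕ) [NeZero m], m₀ ≤ m → ∀ (ι : Type) (s : Finset ι) (v : ι → ZMod m), Small m δ s v →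
        ∀ (a : ℤ) (X : ℕ), X₀ ≤ X →
          (exceptions s (fun i => a + ((v i).val : ℤ)) artin ε X ((m : ℝ) ^ c) : ℝ) ≤
            C * s.card / Nat.primeCounting X) ∧
      (∀ D : ℤ, Squarefree D → D % 4 = 1 → D ≠ 1 →
        ∃ X₀ : ℕ, ∀ (m : ℕ) [NeZero m], m₀ ≤ m → ∀ (ι : Type) (s : Finset ι) (v : ι → ZMod m), Small m δ s v →
        ∀ (a : ℤ) (X : ℕ), X₀ ≤ X →
          (exceptions s (fun i => D * (a + ((v i).val : ℤ)) ^ 2) (density D) ε X ((m : ℝ) ^ c) : ℝ) ≤
            C * s.card / Nat.primeCounting X)) ∧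
    (∀ (p : ℕ) [Fact p.Prime] (d : ℕ) (A A' : Finset (Fin d → ZMod p)) (Q : Matrix (Fin d) (Fin d) (ZMod p)),
      IsUnit Q.det → (p : ℝ) ^ (d + 2 * δ) ≤ A.card * A'.card → ∀ f g : (Fin d → ZMod p) → ZMod p,
      Small p δ (A ×ˢ A') (fun z => z.1 ⬝ᵥ Q.mulVec z.2 + f z.1 + g z.2)) := by
  classical
  obtain ⟨m₀, hm₀⟩ := Pool.Agent.V11113.MR.members δ hδ
  refine ⟨Pool.Agent.V11113.MR.cc δ 1, Pool.Agent.V11113.MR.cc_pos δ hδ 1, m₀, fun ε hε => ?_, ?_⟩
  · obtain ⟨C, hC, h⟩ := hm₀ ε hε
    refine ⟨C, hC, ?_, fun D hD hD4 hD1 => ?_⟩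
    · obtain ⟨X₀, hX₀⟩ := h Pool.Agent.V11113.MR.GP _ Pool.Agent.V11113.MR.lim_GP
      refine ⟨X₀, fun m _ hm ι s v hs a X hX => ?_⟩
      refine le_trans (le_of_eq ?_) (hX₀ m hm ι s v hs a X hX)
      unfold exceptions P
      simp only [Pool.Agent.V11113.MR.hits_GP]
      rfl
    · obtain ⟨X₀, hX₀⟩ := h (Pool.Agent.V11113.MR.GD D) _ (Pool.Agent.V11113.MR.lim_GD D hD hD4 hD1)
      refine ⟨X₀, fun m _ hm ι s v hs a X hX => ?_⟩
      refine le_trans (le_of_eq ?_) (hX₀ m hm ι s v hs a X hX)
      unfold exceptions P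
      simp only [Pool.Agent.V11113.MR.hits_GD]
      rfl
  · intro p _ d A A' Q hQ hN f g b hb
    exact Pool.Agent.V11113.MR.bil_small δ p d A A' Q hQ f g hN b hb

end Pool.Agent.Results.MP_991e92_nt.ThinFamilies
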